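import Pool.Agent.L0h47.NFS.Defs

/-!
# Comparison of the two forms of the definitions
-/

set_option autoImplicit false

namespace Pool.Agent.L0h47.NFS

open Matrix NumberField IsDedekindDomain

variable {n : ℕ} {F : Type} [Field F] [NumberField F] {Sg : Finset (Pl F)} {L : Level n Sg} {p : ℕ}
  {O : Type} [CommRing O] {W : Type} [AddCommGroup W] [Module O W]

/-- the same system of eigenvalues -/
def oldθ {k : Type} [Field k] [Algebra O k] (θ : HA n Sg O →ₐ[O] k) :
    FreeAlgebra O (NF.HI n Sg) →ₐ[O] k := θ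

theorem T_old (C : Coef L p O W) (i : ℕ) (a : HI n Sg) :
    C.T i a = C.old.T i a := rfl

theorem locNe_old (C : Coef L p O W) (i : ℕ) {k : Type} [Field k] [Algebra O k]
    (θ : HA n Sg O →ₐ[O] k) (h : C.LocNe i θ) : C.old.LocNe i (oldθ θ) := h

theorem td_old (v : Pl F) (k : ℕ) : td n v k = NF.td n v k := Units.ext rfl

theorem satake_old {k : Type} [Field k] [Algebra O k] (θ : HA n Sg O →ₐ[O] k) (t : ℤ)
    (v : Gp Sg) : satake θ t v = NF.satake (oldθ θ) t v := by
  unfold satake NF.satake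
  apply Finset.sum_congr rfl
  intro j _
  rw [td_old]
  rfl

theorem attached_old {k : Type} [Field k] [Algebra O k] (θ : HA n Sg O →ₐ[O] k) (e t : ℤ)
    {E : Type} [Field E] [NumberField E] [Algebra F E] (ρ : Gal(E/F) →* GL (Fin n) k)
    (h : Attached θ e t ρ) : NF.Attached (oldθ θ) e t ρ :=
  ⟨fun v hv P hP hl σ hσ => h.unram v hv P ⟨hP, hl⟩ σ hσ,
    fun v P hP hl σ hσ => (h.frob v P ⟨hP, hl⟩ σ hσ).trans (satake_old θ t v)⟩

theorem absIrr_old {k : Type} [Field k] {Γ : Type} [Group Γ] {ρ : Γ →* GL (Fin n) k} (h : AbsIrr ρ) :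
    NF.AbsIrr ρ := fun k' _ _ _ S hS => h k' S hS

end Pool.Agent.L0h47.NFS
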