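import Pool.Agent.L0h47.NF.Stmt

/-!
# The cohomology of the spaces `Y(K_f)` of `GL_n` over a number field

The finite adelic points of `GL_n`, levels, coefficients, the cohomology of `Y(K_f)`, its Hecke
operators, systems of Hecke eigenvalues and the Galois representations attached to them.
-/

set_option autoImplicit false

namespace Pool.Agent.L0h47.NFS

open Matrix NumberField IsDedekindDomain
open scoped WithZero

/-- The finite places of the number field `F`. -/
abbrev Pl (F : Type) [Field F] : Type := HeightOneSpectrum (𝓞 F)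

variable {F : Type} [Field F] [NumberField F]

/-- The number of elements of the residue field. -/
noncomputable def qv (v : Pl F) : ℕ := Ideal.absNorm v.asIdeal

/-- The completion `F_v`. -/
def Kv (v : Pl F) : Type := v.adicCompletion F

noncomputable instance instKv (v : Pl F) : Field (Kv v) :=
  (inferInstance : Field (v.adicCompletion F))

/-- The valuation of `F_v` (multiplicative notation, an integer has valuation `≤ 1`). -/
noncomputable def val {v : Pl F} (x : Kv v) : ℤᵐ⁰ :=
  Valued.v (R := v.adicCompletion F) x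

/-- The embedding of `F` in `F_v`. -/
noncomputable def cst (v : Pl F) : F →+* Kv v := algebraMap F (v.adicCompletion F)

/-! ### Generalities -/

section General

variable {O : Type} [CommRing O]

/-- The linear map `φ` commutes with the representation `ρ`. -/
def Comm {G V : Type} [Group G] [AddCommGroup V] [Module O V] (ρ : Representation O G V)
    (φ : V →ₗ[O] V) : Prop := ∀ γ v, φ (ρ γ v) = ρ γ (φ v)

/-- The endomorphism of the cohomology given by an endomorphism of a representation. -/
noncomputable def mapH {G V : Type} [Group G] [AddCommGroup V] [Module O V]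
    (ρ : Representation O G V) (φ : V →ₗ[O] V) (h : Comm ρ φ) (i : ℕ) :
    Module.End O (groupCohomology (Rep.of ρ) i) :=
  (groupCohomology.map (MonoidHom.id G)
    (Rep.ofHom (LinearMap.intertwiningMap_of_isIntertwiningMap ρ ρ φ h)) i).hom

/-- The system of eigenvalues `θ` occurs in the module `M` with the operators `T`, that is, the
localisation of `M` at the kernel of `θ` is not zero: there is an element of `M` whose annihilator
in the algebra generated by the operators is contained in the kernel of `θ`. -/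
def Occurs {I M k : Type} [AddCommGroup M] [Module O M] [Field k] [Algebra O k]
    (T : I → Module.End O M) (θ : FreeAlgebra O I →ₐ[O] k) : Prop :=
  ∃ h : M, ∀ P : FreeAlgebra O I, FreeAlgebra.lift O T P h = 0 → θ P = 0

end General

/-! ### The group `GL_n(A_f)` -/

variable {n : ℕ} {v : Pl F}

/-- `GL_n(F_v)` -/
def LG (n : ℕ) (v : Pl F) : Type := GL (Fin n) (Kv v)

noncomputable instance instLG (n : ℕ) (v : Pl F) : Group (LG n v) :=
  @Units.instGroup (Matrix (Fin n) (Fin n) (Kv v)) _

/-- The matrix of an element of `GL_n(F_v)`. -/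
def LG.m (g : LG n v) : Matrix (Fin n) (Fin n) (Kv v) :=
  Units.val (α := Matrix (Fin n) (Fin n) (Kv v)) g

/-- `g` is in `GL_n(O_v)`: the entries of `g` and of `g⁻¹` are integral. -/
def LG.Int (g : LG n v) : Prop := (∀ i j, val (g.m i j) ≤ 1) ∧ ∀ i j, val ((g⁻¹).m i j) ≤ 1

theorem int_one : (1 : LG n v).Int := (NF.U n v).one_mem'

theorem int_mul {a b : LG n v} (ha : a.Int) (hb : b.Int) : (a * b).Int :=
  (NF.U n v).mul_mem' ha hb

theorem int_inv {a : LG n v} (ha : a.Int) : (a⁻¹).Int := (NF.U n v).inv_mem' ha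

/-- `GL_n(O_v)` -/
def U (n : ℕ) (v : Pl F) : Subgroup (LG n v) where
  carrier := {g | g.Int}
  one_mem' := int_one
  mul_mem' := int_mul
  inv_mem' := int_inv

/-- Almost all the components of `g` are in `GL_n(O_v)`. -/
def Adelic (g : ∀ v : Pl F, LG n v) : Prop := {v | g v ∉ U n v}.Finite

theorem adelic_one : Adelic (1 : ∀ v : Pl F, LG n v) := (NF.AG n F).one_mem'

theorem adelic_mul {a b : ∀ v : Pl F, LG n v} (ha : Adelic a) (hb : Adelic b) :
    Adelic (a * b) :=
  (NF.AG n F).mul_mem' ha hb

theorem adelic_inv {a : ∀ v : Pl F, LG n v} (ha : Adelic a) : Adelic a⁻¹ :=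
  (NF.AG n F).inv_mem' ha

/-- `GL_n(A_f)` as a subgroup of the product of the groups `GL_n(F_v)`: almost all the components
are in `GL_n(O_v)`. -/
def AG (n : ℕ) (F : Type) [Field F] [NumberField F] : Subgroup (∀ v : Pl F, LG n v) where
  carrier := {g | Adelic g}
  one_mem' := adelic_one
  mul_mem' := adelic_mul
  inv_mem' := adelic_inv

/-- `GL_n(A_f)` -/
def GA (n : ℕ) (F : Type) [Field F] [NumberField F] : Type := ↥(AG n F)

noncomputable instance instGA (n : ℕ) (F : Type) [Field F] [NumberField F] : Group (GA n F) :=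
  Subgroup.toGroup (AG n F)

/-- An element of `GL_n(A_f)` from its components. -/
def GA.of (g : ∀ v : Pl F, LG n v) (h : Adelic g) : GA n F := ⟨g, h⟩

/-- The component at `v`. -/
def GA.c (g : GA n F) (v : Pl F) : LG n v := Subtype.val (p := fun g => g ∈ AG n F) g v

/-- The determinant of `g` is totally positive. -/
def TPos (g : GL (Fin n) F) : Prop := ∀ φ : F →+* ℝ, 0 < φ g.1.det

theorem tpos_one : TPos (1 : GL (Fin n) F) := (NF.GQ n F).one_mem'

theorem tpos_mul {a b : GL (Fin n) F} (ha : TPos a) (hb : TPos b) : TPos (a * b) :=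
  (NF.GQ n F).mul_mem' ha hb

theorem tpos_inv {a : GL (Fin n) F} (ha : TPos a) : TPos a⁻¹ := (NF.GQ n F).inv_mem' ha

/-- The matrices over `F` with totally positive determinant. -/
def GQ (n : ℕ) (F : Type) [Field F] [NumberField F] : Subgroup (GL (Fin n) F) where
  carrier := {g | TPos g}
  one_mem' := tpos_one
  mul_mem' := tpos_mul
  inv_mem' := tpos_inv

/-- The group of the matrices over `F` with totally positive determinant. -/
def GP (n : ℕ) (F : Type) [Field F] [NumberField F] : Type := ↥(GQ n F)

noncomputable instance instGP (n : ℕ) (F : Type) [Field F] [NumberField F] : Group (GP n F) :=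
  Subgroup.toGroup (GQ n F)

/-- The image of a matrix over `F` in `GL_n(F_v)`. -/
noncomputable def loc (γ : GP n F) (v : Pl F) : LG n v :=
  Matrix.GeneralLinearGroup.map (cst v) (Subtype.val (p := fun g => g ∈ GQ n F) γ)

theorem loc_adelic (γ : GP n F) : Adelic (loc γ) := (NF.dg n γ).2

/-- The image of a matrix over `F` in `GL_n(A_f)`. -/
noncomputable def dg (γ : GP n F) : GA n F := GA.of (loc γ) (loc_adelic γ)

open Classical in
/-- The family with component `x` at `v` and trivial components elsewhere. -/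
noncomputable def single (x : LG n v) : ∀ v : Pl F, LG n v := Pi.mulSingle v x

theorem single_adelic (x : LG n v) : Adelic (single x) := (NF.inc n v x).2

/-- The image of an element of `GL_n(F_v)` in `GL_n(A_f)`. -/
noncomputable def inc (x : LG n v) : GA n F := GA.of (single x) (single_adelic x)

/-! ### Levels and coefficients -/

/-- `g` is in `GL_n(O_v)` and congruent to the identity modulo `N`. -/
def LG.Near (N : ℕ) (g : LG n v) : Prop :=
  g ∈ U n v ∧ ∀ i j, val (g.m i j - (1 : Matrix (Fin n) (Fin n) (Kv v)) i j) ≤ val ((N : ℕ) : Kv v)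

/-- All the components of `g` are in `GL_n(O_v)` and congruent to the identity modulo `N`. -/
def GA.Near (N : ℕ) (g : GA n F) : Prop := ∀ v, (g.c v).Near N

/-- A level: an open subgroup `K_f` of `∏ GL_n(O_v)` which contains `GL_n(O_v)` for the places `v`
outside of the finite set `Sg`. -/
structure Level (n : ℕ) (Sg : Finset (Pl F)) where
  /-- the group `K_f` -/
  Kf : Subgroup (GA n F)
  le : ∀ κ ∈ Kf, ∀ v, κ.c v ∈ U n v
  isOpen : ∃ N : ℕ, N ≠ 0 ∧ ∀ g : GA n F, g.Near N → g ∈ Kf
  full : ∀ v, v ∉ Sg → ∀ u ∈ U n v, inc u ∈ Kf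

variable {Sg : Finset (Pl F)} {L : Level n Sg} {p : ℕ}

/-- the same data (used in proofs only) -/
def Level.old (L : Level n Sg) : NF.Level n Sg := ⟨L.Kf, L.le, L.isOpen, L.full⟩

/-- The group `K_f`. -/
def Level.K (L : Level n Sg) : Type := ↥(L.Kf)

noncomputable instance instK (L : Level n Sg) : Group L.K := Subgroup.toGroup L.Kf

/-- The element of `GL_n(A_f)` given by an element of `K_f`. -/
def Level.K.g (k : L.K) : GA n F := Subtype.val (p := fun g => g ∈ L.Kf) k

/-- A coefficient module: an `O`-module `W` with an `O`-linear action of `K_f`, which is trivial on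
an open subgroup and on `GL_n(O_v)` for `v` outside of `Sg`; `W` is killed by a power of `p`. -/
structure Coef (L : Level n Sg) (p : ℕ) (O : Type) [CommRing O] (W : Type) [AddCommGroup W]
    [Module O W] where
  /-- the action of `K_f` -/
  act : Representation O L.K W
  smooth : ∃ N : ℕ, N ≠ 0 ∧ ∀ κ : L.K, κ.g.Near N → act κ = 1
  unr : ∀ v, v ∉ Sg → ∀ u ∈ U n v, ∀ κ : L.K, κ.g = inc u → act κ = 1
  tors : ∃ r : ℕ, ∀ w : W, (p ^ r) • w = 0

variable {O : Type} [CommRing O] {W : Type} [AddCommGroup W] [Module O W]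

/-- the same data (used in proofs only) -/
def Coef.old (C : Coef L p O W) : NF.Coef L.old p O W :=
  ⟨C.act, C.smooth, fun v hv u hu => C.unr v hv u hu ⟨inc u, L.full v hv u hu⟩ rfl, C.tors⟩

/-! ### The cohomology of `Y(K_f)` -/

/-- `f (g k) = k⁻¹ f(g)` for `k` in `K_f`. -/
def Coef.Eqv (C : Coef L p O W) (f : GA n F → W) : Prop :=
  ∀ (g : GA n F) (k : L.K), f (g * k.g) = C.act k⁻¹ (f g)

theorem Coef.eqv_add (C : Coef L p O W) {f f' : GA n F → W} (h : C.Eqv f) (h' : C.Eqv f') :
    C.Eqv (f + f') := C.old.Fn.add_mem' h h'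

theorem Coef.eqv_zero (C : Coef L p O W) : C.Eqv 0 := C.old.Fn.zero_mem'

theorem Coef.eqv_smul (C : Coef L p O W) (c : O) {f : GA n F → W} (h : C.Eqv f) :
    C.Eqv (c • f) := C.old.Fn.smul_mem' c h

/-- The module of the functions `f : GL_n(A_f) → W` with `f (g k) = k⁻¹ f(g)` for `k` in
`K_f`. -/
def Coef.Fn (C : Coef L p O W) : Submodule O (GA n F → W) where
  carrier := {f | C.Eqv f}
  add_mem' := C.eqv_add
  zero_mem' := C.eqv_zero
  smul_mem' := C.eqv_smul

/-- The module of these functions. -/
def Coef.V (C : Coef L p O W) : Type := ↥C.Fn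

noncomputable instance instVA (C : Coef L p O W) : AddCommGroup C.V := C.Fn.addCommGroup

noncomputable instance instVM (C : Coef L p O W) : Module O C.V := C.Fn.module

/-- The function. -/
def Coef.V.f {C : Coef L p O W} (f : C.V) : GA n F → W := Subtype.val (p := fun f => f ∈ C.Fn) f

/-- An element of the module from the function. -/
def Coef.V.of {C : Coef L p O W} (f : GA n F → W) (h : C.Eqv f) : C.V := ⟨f, h⟩

theorem Coef.V.eqv {C : Coef L p O W} (f : C.V) : C.Eqv f.f := f.2

theorem Coef.eqv_trans (C : Coef L p O W) (γ : GP n F) (f : C.V) :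
    C.Eqv (fun g => f.f ((dg γ)⁻¹ * g)) := (C.old.rep γ f).2

/-- The left translation of functions by a matrix over `F`: `(γ f)(g) = f(γ⁻¹ g)`. -/
noncomputable def Coef.tr (C : Coef L p O W) (γ : GP n F) (f : C.V) : C.V :=
  Coef.V.of (fun g => f.f ((dg γ)⁻¹ * g)) (C.eqv_trans γ f)

theorem Coef.tr_add (C : Coef L p O W) (γ : GP n F) (f f' : C.V) :
    C.tr γ (f + f') = C.tr γ f + C.tr γ f' := rfl

theorem Coef.tr_smul (C : Coef L p O W) (γ : GP n F) (c : O) (f : C.V) :
    C.tr γ (c • f) = c • C.tr γ f := rfl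

/-- The left translation as a linear map. -/
noncomputable def Coef.trL (C : Coef L p O W) (γ : GP n F) : C.V →ₗ[O] C.V where
  toFun := C.tr γ
  map_add' := C.tr_add γ
  map_smul' := C.tr_smul γ

theorem Coef.trL_one (C : Coef L p O W) : C.trL 1 = 1 := C.old.rep.map_one'

theorem Coef.trL_mul (C : Coef L p O W) (γ δ : GP n F) : C.trL (γ * δ) = C.trL γ * C.trL δ :=
  C.old.rep.map_mul' γ δ

/-- The representation of `GP n F` on the functions. -/
noncomputable def Coef.rep (C : Coef L p O W) : Representation O (GP n F) C.V where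
  toFun := C.trL
  map_one' := C.trL_one
  map_mul' := C.trL_mul

/-- The cohomology group `H^i(Y(K_f), W)`, as the cohomology of the group of the matrices over `F`
with totally positive determinant, with values in the functions on `GL_n(A_f)`. -/
noncomputable def Coef.H (C : Coef L p O W) (i : ℕ) : ModuleCat O :=
  groupCohomology (Rep.of C.rep) i

/-! ### Hecke operators -/

/-- The coset `c` of `GL_n(O_v)` is contained in the double coset `GL_n(O_v) x GL_n(O_v)`. -/
def InDC (x : LG n v) (c : LG n v ⧸ U n v) : Prop :=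
  ∃ u ∈ U n v, c = ((u * x : LG n v) : LG n v ⧸ U n v)

/-- The Hecke operator of the double coset of `x` on functions:
`(T f)(g) = ∑ f (g y)`, the sum over the cosets `y GL_n(O_v)` in the double coset of `x`. -/
noncomputable def hecke (x : LG n v) (f : GA n F → W) (g : GA n F) : W :=
  ∑ᶠ c : {c : LG n v ⧸ U n v // InDC x c}, f (g * inc (Quotient.out c.1))

/-- The places outside of `Sg`. -/
def Gp (Sg : Finset (Pl F)) : Type := {v : Pl F // v ∉ Sg}

/-- The place. -/
def Gp.pr (a : Gp Sg) : Pl F := Subtype.val (p := fun v => v ∉ Sg) a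

theorem Gp.not_mem (a : Gp Sg) : a.pr ∉ Sg := a.2

/-- The indices of the Hecke operators: a place `v` outside of `Sg` and an element of
`GL_n(F_v)`. -/
def HI (n : ℕ) (Sg : Finset (Pl F)) : Type := Σ v : Gp Sg, LG n v.pr

/-- The place of an index. -/
def HI.pr (a : HI n Sg) : Gp Sg := Sigma.fst a

/-- The matrix of an index. -/
def HI.x (a : HI n Sg) : LG n a.pr.pr := Sigma.snd a

/-- The index given by a place and a matrix. -/
def HI.mk (v : Gp Sg) (x : LG n v.pr) : HI n Sg := ⟨v, x⟩

theorem Coef.eqv_hecke (C : Coef L p O W) (a : HI n Sg) (f : C.V) :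
    C.Eqv (hecke a.x f.f) := (C.old.heckeFn a.pr.pr a.pr.2 a.x f).2

/-- The Hecke operator on the module of functions. -/
noncomputable def Coef.hk (C : Coef L p O W) (a : HI n Sg) (f : C.V) : C.V :=
  Coef.V.of (hecke a.x f.f) (C.eqv_hecke a f)

theorem Coef.hk_add (C : Coef L p O W) (a : HI n Sg) (f f' : C.V) :
    C.hk a (f + f') = C.hk a f + C.hk a f' :=
  (C.old.heckeFn a.pr.pr a.pr.2 a.x).map_add' f f'

theorem Coef.hk_smul (C : Coef L p O W) (a : HI n Sg) (c : O) (f : C.V) :
    C.hk a (c • f) = c • C.hk a f :=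
  (C.old.heckeFn a.pr.pr a.pr.2 a.x).map_smul' c f

/-- The Hecke operator on the module of functions as a linear map. -/
noncomputable def Coef.hkL (C : Coef L p O W) (a : HI n Sg) : C.V →ₗ[O] C.V where
  toFun := C.hk a
  map_add' := C.hk_add a
  map_smul' := C.hk_smul a

theorem Coef.hkL_comm (C : Coef L p O W) (a : HI n Sg) : Comm C.rep (C.hkL a) :=
  fun γ f => Subtype.ext (funext fun g => NF.hecke_left f.1 a.x (NF.dg n γ)⁻¹ g)

/-- The Hecke operator on the cohomology. -/
noncomputable def Coef.T (C : Coef L p O W) (i : ℕ) (a : HI n Sg) : Module.End O (C.H i) :=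
  mapH C.rep (C.hkL a) (C.hkL_comm a) i

/-- The free algebra on the Hecke operators. -/
abbrev HA (n : ℕ) (Sg : Finset (Pl F)) (O : Type) [CommRing O] : Type := FreeAlgebra O (HI n Sg)

/-- `H^i(Y(K_f), W)_m ≠ 0` for the kernel `m` of the system of Hecke eigenvalues `θ`. -/
def Coef.LocNe (C : Coef L p O W) (i : ℕ) {k : Type} [Field k] [Algebra O k]
    (θ : HA n Sg O →ₐ[O] k) : Prop :=
  Occurs (C.T i) θ

/-! ### Galois representations -/

theorem exists_unif (v : Pl F) : ∃ x : F, v.valuation F x = WithZero.exp (-1 : ℤ) :=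
  v.valuation_exists_uniformizer F

/-- A uniformizer `ϖ` at `v`. -/
noncomputable def unif (v : Pl F) : Kv v := cst v (exists_unif v).choose

/-- The matrix `diag(ϖ, …, ϖ, 1, …, 1)` with `k` entries `ϖ`. -/
noncomputable def tm (n : ℕ) (v : Pl F) (k : ℕ) : Matrix (Fin n) (Fin n) (Kv v) :=
  diagonal (fun i : Fin n => if (i : ℕ) < k then unif v else 1)

theorem det_tm (n : ℕ) (v : Pl F) (k : ℕ) : (tm n v k).det ≠ 0 := by
  unfold tm
  rw [det_diagonal]
  apply Finset.prod_ne_zero_iff.mpr
  intro i _
  split_ifs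
  · exact NF.unif_ne v
  · exact one_ne_zero

/-- The same matrix as an element of `GL_n(F_v)`. -/
noncomputable def td (n : ℕ) (v : Pl F) (k : ℕ) : LG n v :=
  Matrix.GeneralLinearGroup.mkOfDetNeZero (tm n v k) (det_tm n v k)

/-- The Satake polynomial at `v` of a system of Hecke eigenvalues `θ`, twisted by the `t`-th power
of the cyclotomic character:
`∑_j (-1)^j q^{j(j-1)/2 + t j} θ(T_{v,j}) X^{n-j}`,
with `q` the number of elements of the residue field and `T_{v,j}` the double coset operator of
`diag(ϖ, …, ϖ, 1, …, 1)` (`j` entries `ϖ`). -/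
noncomputable def satake {k : Type} [Field k] [Algebra O k] (θ : HA n Sg O →ₐ[O] k) (t : ℤ)
    (v : Gp Sg) : Polynomial k :=
  ∑ j ∈ Finset.range (n + 1),
    Polynomial.C ((-1) ^ j * ((qv v.pr : ℕ) : k) ^ (((j * (j - 1) / 2 : ℕ) : ℤ) + t * j) *
      θ (FreeAlgebra.ι O (HI.mk v (td n v.pr j)))) * Polynomial.X ^ (n - j)

/-- The prime ideal `P` of the ring of integers of `E` lies above the place `v` of `F`. -/
def Above {E : Type} [Field E] [NumberField E] [Algebra F E] (v : Pl F) (P : Ideal (𝓞 E)) : Prop :=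
  P.IsPrime ∧ ∀ a ∈ v.asIdeal, algebraMap (𝓞 F) (𝓞 E) a ∈ P

/-- The representation `ρ` of the Galois group of the finite Galois extension `E` of `F` is attached
to `θ`: it is unramified outside of `Sg` and for `v` outside of `Sg` the characteristic polynomial
of the (arithmetic for `e = 1`, geometric for `e = -1`) Frobenius elements at `v` is the Satake
polynomial. -/
structure Attached {k : Type} [Field k] [Algebra O k] (θ : HA n Sg O →ₐ[O] k)
    (e t : ℤ) {E : Type} [Field E] [NumberField E] [Algebra F E] (ρ : Gal(E/F) →* GL (Fin n) k) :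
    Prop where
  unram : ∀ v : Pl F, v ∉ Sg → ∀ P : Ideal (𝓞 E), Above v P →
    ∀ σ : Gal(E/F), (∀ x : 𝓞 E, σ • x - x ∈ P) → ρ σ = 1
  frob : ∀ v : Gp Sg, ∀ P : Ideal (𝓞 E), Above v.pr P →
    ∀ σ : Gal(E/F), (∀ x : 𝓞 E, σ • x - x ^ (qv v.pr) ∈ P) →
      ((ρ (σ ^ e)).1).charpoly = satake θ t v

/-- Over the extension `k'` of `k` there is no proper nonzero invariant subspace. -/
def Irr {k : Type} [Field k] {Γ : Type} [Group Γ] (ρ : Γ →* GL (Fin n) k) (k' : Type) [Field k']
    [Algebra k k'] : Prop :=
  ∀ S : Submodule k' (Fin n → k'),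
    (∀ σ, ∀ v ∈ S, ((ρ σ).1.map (algebraMap k k')) *ᵥ v ∈ S) → S = ⊥ ∨ S = ⊤

/-- `ρ` is absolutely irreducible: irreducible over every finite extension of `k`. -/
def AbsIrr {k : Type} [Field k] {Γ : Type} [Group Γ] (ρ : Γ →* GL (Fin n) k) : Prop :=
  ∀ (k' : Type) [Field k'] [Algebra k k'] [FiniteDimensional k k'], Irr ρ k'

end Pool.Agent.L0h47.NFS
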